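import Pool.Agent.Helper98.EX.Stmts3

/-!
# MP_157eb8_pr, module EVMAX: size of the largest window value
-/

set_option autoImplicit false

namespace Pool.Agent.Helper98.EX

open Finset MeasureTheory ProbabilityTheory Filter
open scoped Topology

theorem evmax_meas_RR {Ω : Type} [MeasurableSpace Ω] {P : Measure Ω} {X : ℕ → Ω → ℝ}
    (hI : IIDE P X) (z x : ℕ) :
    Measurable (fun ω => RR (rE (EE X ω)) (lE (EE X ω)) z x) := by
  unfold RR rE lE EE
  exact Finset.measurable_prod _ (fun b _ => (measurable_const.sub (hI.meas b)).div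
    (hI.meas (b - 1)))

theorem evmax_markov {Ω : Type} [MeasurableSpace Ω] (P : Measure Ω) (Y : Ω → ℝ)
    (hY : Measurable Y) (v s K : ℝ) (hv : 0 < v) (hs : 0 < s)
    (hK : ∫⁻ ω, ENNReal.ofReal (Y ω ^ s) ∂P ≤ ENNReal.ofReal K) :
    P {ω | v ≤ Y ω} ≤ ENNReal.ofReal (K / v ^ s) := by
  have hvs : 0 < v ^ s := Real.rpow_pos_of_pos hv s
  have h1 : {ω | v ≤ Y ω} ⊆ {ω | ENNReal.ofReal (v ^ s) ≤ ENNReal.ofReal (Y ω ^ s)} := by
    intro ω hω
    have h : v ≤ Y ω := hω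
    exact ENNReal.ofReal_le_ofReal (Real.rpow_le_rpow hv.le h hs.le)
  have h2 : Measurable (fun ω => ENNReal.ofReal (Y ω ^ s)) :=
    ENNReal.measurable_ofReal.comp (hY.pow_const s)
  have h3 := meas_ge_le_lintegral_div (μ := P) h2.aemeasurable
    (ε := ENNReal.ofReal (v ^ s)) (ENNReal.ofReal_pos.mpr hvs).ne' ENNReal.ofReal_ne_top
  refine le_trans (measure_mono h1) (le_trans h3 ?_)
  rw [ENNReal.ofReal_div_of_pos hvs]
  exact ENNReal.div_le_div_right hK _

theorem st_EVMAX (hM : ST_MOM) : ST_EVMAX := by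
  intro Ω _ P X s θ hI hs hθ0 hθ1 hmom ηp γ hη hγ
  obtain ⟨C, hC, hCC⟩ := hM Ω P X s θ hI hs hθ0 hθ1 hmom
  have hs0 : 0 < s := by linarith
  have hgs : 0 < γ * s := mul_pos hγ hs0
  have hlim : Tendsto (fun N : ℕ => 2 * C / (1 - θ) * (N : ℝ) ^ (-(γ * s))) atTop (𝓝 0) := by
    have h := ((tendsto_rpow_neg_atTop hgs).comp tendsto_natCast_atTop_atTop).const_mul
      (2 * C / (1 - θ))
    rw [mul_zero] at h
    exact h
  obtain ⟨N0, hN0⟩ := eventually_atTop.mp ((tendsto_order.1 hlim).2 _ hη)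
  refine ⟨max N0 1, ?_⟩
  intro N hN
  have hN1 : N0 ≤ N := le_trans (le_max_left _ _) hN
  have hN2 : 1 ≤ N := le_trans (le_max_right _ _) hN
  have hNpos : (0 : ℝ) < N := by exact_mod_cast hN2
  obtain ⟨v, hv⟩ : ∃ v, v = (N : ℝ) ^ (1 / s + γ) := ⟨_, rfl⟩
  have hv0 : 0 < v := by
    rw [hv]
    exact Real.rpow_pos_of_pos hNpos _
  have hvs : v ^ s = N * (N : ℝ) ^ (γ * s) := by
    rw [hv, ← Real.rpow_mul hNpos.le, add_mul, one_div, inv_mul_cancel₀ hs0.ne',
      Real.rpow_add hNpos, Real.rpow_one]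
  have hvs0 : 0 < v ^ s := Real.rpow_pos_of_pos hv0 s
  rw [← hv]
  have hsub : {ω | ∃ z y, z ≤ y ∧ y < N ∧ WV X ω z y v} ⊆
      ⋃ z ∈ Finset.range N, ⋃ d ∈ Finset.range N,
        ({ω | v ≤ RR (rE (EE X ω)) (lE (EE X ω)) z (z + d) / X (z + d) ω} ∪
          {ω | 1 ≤ z ∧ v ≤ RR (rE (EE X ω)) (lE (EE X ω)) z (z + d) / X (z - 1) ω}) := by
    intro ω hω
    obtain ⟨z, y, h1, h2, h3⟩ := hω
    rw [Set.mem_iUnion₂]
    refine ⟨z, Finset.mem_range.mpr (by omega), ?_⟩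
    rw [Set.mem_iUnion₂]
    refine ⟨y - z, Finset.mem_range.mpr (by omega), ?_⟩
    rw [Nat.add_sub_cancel' h1]
    exact h3
  have hterm : ∀ z d : ℕ,
      P ({ω | v ≤ RR (rE (EE X ω)) (lE (EE X ω)) z (z + d) / X (z + d) ω} ∪
          {ω | 1 ≤ z ∧ v ≤ RR (rE (EE X ω)) (lE (EE X ω)) z (z + d) / X (z - 1) ω}) ≤
        ENNReal.ofReal (2 * C / v ^ s * θ ^ d) := by
    intro z d
    obtain ⟨-, hA, hB⟩ := hCC z (z + d) (by omega)
    rw [Nat.add_sub_cancel_left] at hA hB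
    have hnn : 0 ≤ C * θ ^ d / v ^ s := by positivity
    have h1 := evmax_markov P _ ((evmax_meas_RR hI z (z + d)).div (hI.meas (z + d))) v s _ hv0 hs0 hA
    have h2 : P {ω | 1 ≤ z ∧ v ≤ RR (rE (EE X ω)) (lE (EE X ω)) z (z + d) / X (z - 1) ω} ≤
        ENNReal.ofReal (C * θ ^ d / v ^ s) := by
      by_cases hz : 1 ≤ z
      · have h3 := evmax_markov P _ ((evmax_meas_RR hI z (z + d)).div (hI.meas (z - 1))) v s _ hv0
          hs0 (hB hz)
        refine le_trans (measure_mono ?_) h3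
        intro ω hω
        exact hω.2
      · have h3 : {ω | 1 ≤ z ∧ v ≤ RR (rE (EE X ω)) (lE (EE X ω)) z (z + d) / X (z - 1) ω} = ∅ := by
          ext ω
          constructor
          · intro hω
            exact absurd hω.1 hz
          · intro hω
            exact hω.elim
        rw [h3, measure_empty]
        exact zero_le
    refine le_trans (measure_union_le _ _) (le_trans (add_le_add h1 h2) ?_)
    rw [← ENNReal.ofReal_add hnn hnn]
    apply ENNReal.ofReal_le_ofReal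
    apply le_of_eq
    ring
  refine le_trans (measure_mono hsub) ?_
  refine le_trans (measure_biUnion_finset_le _ _) ?_
  have hgeo : ∀ n : ℕ, ∑ d ∈ Finset.range n, 2 * C / v ^ s * θ ^ d ≤ 2 * C / v ^ s / (1 - θ) := by
    intro n
    rw [← Finset.mul_sum, div_eq_mul_inv (2 * C / v ^ s) (1 - θ)]
    apply mul_le_mul_of_nonneg_left _ (by positivity)
    have h1 := (summable_geometric_of_lt_one hθ0.le hθ1).sum_le_tsum (Finset.range n)
      (fun i _ => pow_nonneg hθ0.le i)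
    rw [tsum_geometric_of_lt_one hθ0.le hθ1] at h1
    exact h1
  have hrow : ∀ z ∈ Finset.range N, P (⋃ d ∈ Finset.range N,
        ({ω | v ≤ RR (rE (EE X ω)) (lE (EE X ω)) z (z + d) / X (z + d) ω} ∪
          {ω | 1 ≤ z ∧ v ≤ RR (rE (EE X ω)) (lE (EE X ω)) z (z + d) / X (z - 1) ω})) ≤
        ENNReal.ofReal (2 * C / v ^ s / (1 - θ)) := by
    intro z _
    refine le_trans (measure_biUnion_finset_le _ _) ?_
    refine le_trans (Finset.sum_le_sum (fun d _ => hterm z d)) ?_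
    rw [← ENNReal.ofReal_sum_of_nonneg (fun d _ => by positivity)]
    exact ENNReal.ofReal_le_ofReal (hgeo N)
  refine le_trans (Finset.sum_le_sum hrow) ?_
  rw [Finset.sum_const, Finset.card_range, nsmul_eq_mul, ← ENNReal.ofReal_natCast,
    ← ENNReal.ofReal_mul hNpos.le]
  apply ENNReal.ofReal_le_ofReal
  have h1 := hN0 N hN1
  refine le_trans (le_of_eq ?_) h1.le
  rw [hvs, Real.rpow_neg hNpos.le]
  have h2 : (N : ℝ) ^ (γ * s) ≠ 0 := (Real.rpow_pos_of_pos hNpos _).ne'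
  have h3 : (1 - θ) ≠ 0 := by linarith
  field_simp

end Pool.Agent.Helper98.EX
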