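import Pool.Agent.Helper98.EX.Stmts3

/-!
# MP_157eb8_pr, module STR: weak stretches exist
-/

set_option autoImplicit false

namespace Pool.Agent.Helper98.EX

open Finset MeasureTheory ProbabilityTheory Filter
open scoped Topology

/-- extension of a finite tuple by zero -/
noncomputable def str_e (S : Finset ℕ) (f : S → ℝ) : ℕ → ℝ :=
  fun y => if h : y ∈ S then f ⟨y, h⟩ else 0

theorem str_e_meas (S : Finset ℕ) : Measurable (str_e S) := by
  rw [measurable_pi_iff]
  intro y
  unfold str_e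
  by_cases h : y ∈ S
  · simp only [h, dif_pos]
    exact measurable_pi_apply _
  · simp only [h, dif_neg, not_false_iff]
    exact measurable_const

theorem str_indep {Ω : Type} [MeasurableSpace Ω] {P : Measure Ω} {X : ℕ → Ω → ℝ}
    (hI : IIDE P X) (S T : Finset ℕ) (hST : Disjoint S T) (A B : Set (ℕ → ℝ))
    (hA : MeasurableSet A) (hB : MeasurableSet B)
    (hAS : ∀ f g : ℕ → ℝ, (∀ y ∈ S, f y = g y) → (f ∈ A ↔ g ∈ A))
    (hBT : ∀ f g : ℕ → ℝ, (∀ y ∈ T, f y = g y) → (f ∈ B ↔ g ∈ B)) :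
    P {ω | (fun y => X y ω) ∈ A ∧ (fun y => X y ω) ∈ B} =
      P {ω | (fun y => X y ω) ∈ A} * P {ω | (fun y => X y ω) ∈ B} := by
  have h := hI.indep.indepFun_finset S T hST hI.meas
  have h2 := h.measure_inter_preimage_eq_mul (str_e S ⁻¹' A) (str_e T ⁻¹' B)
    (str_e_meas S hA) (str_e_meas T hB)
  have hSA : (fun a (i : S) => X i a) ⁻¹' (str_e S ⁻¹' A) = {ω | (fun y => X y ω) ∈ A} := by
    ext ω
    simp only [Set.mem_preimage, Set.mem_ofPred_eq]
    apply hAS
    intro y hy
    simp [str_e, hy]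
  have hTB : (fun a (i : T) => X i a) ⁻¹' (str_e T ⁻¹' B) = {ω | (fun y => X y ω) ∈ B} := by
    ext ω
    simp only [Set.mem_preimage, Set.mem_ofPred_eq]
    apply hBT
    intro y hy
    simp [str_e, hy]
  rw [hSA, hTB] at h2
  exact h2

theorem str_block {Ω : Type} [MeasurableSpace Ω] {P : Measure Ω} {X : ℕ → Ω → ℝ}
    (hI : IIDE P X) (a : ℝ) (m B : ℕ) :
    P {ω | ¬ ∀ y, B ≤ y → y < B + m → X y ω ≤ a} = 1 - P {ω | X 0 ω ≤ a} ^ m := by
  have := hI.prob
  have h1 := hI.indep.measure_inter_preimage_eq_mul (Finset.Ico B (B + m))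
    (sets := fun _ => Set.Iic a) (fun _ _ => measurableSet_Iic)
  have h2 : (⋂ i ∈ Finset.Ico B (B + m), X i ⁻¹' Set.Iic a) =
      {ω | ∀ y, B ≤ y → y < B + m → X y ω ≤ a} := by
    ext ω
    simp only [Set.mem_iInter, Set.mem_preimage, Set.mem_Iic, Finset.mem_Ico, Set.mem_ofPred_eq]
    constructor
    · intro h y h1 h2
      exact h y ⟨h1, h2⟩
    · intro h y hy
      exact h y hy.1 hy.2
  have h3 : ∀ i ∈ Finset.Ico B (B + m), P (X i ⁻¹' Set.Iic a) = P {ω | X 0 ω ≤ a} := by
    intro i _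
    exact (hI.ident i).measure_mem_eq measurableSet_Iic
  rw [h2, Finset.prod_congr rfl h3, Finset.prod_const, Nat.card_Ico, Nat.add_sub_cancel_left] at h1
  have h4 : MeasurableSet {ω | ∀ y, B ≤ y → y < B + m → X y ω ≤ a} := by
    rw [← h2]
    exact Finset.measurableSet_biInter _ (fun i _ => hI.meas i measurableSet_Iic)
  rw [← h1]
  exact prob_compl_eq_one_sub h4

theorem str_meas (a : ℝ) (m B : ℕ) :
    MeasurableSet {f : ℕ → ℝ | ∀ y, B ≤ y → y < B + m → f y ≤ a} := by
  have h : {f : ℕ → ℝ | ∀ y, B ≤ y → y < B + m → f y ≤ a} =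
      ⋂ y ∈ Finset.Ico B (B + m), (fun f : ℕ → ℝ => f y) ⁻¹' Set.Iic a := by
    ext f
    rw [Set.mem_iInter₂]
    constructor
    · intro h y hy
      rw [Finset.mem_Ico] at hy
      exact h y hy.1 hy.2
    · intro h y h1 h2
      exact h y (Finset.mem_Ico.mpr ⟨h1, h2⟩)
  rw [h]
  exact Finset.measurableSet_biInter _ (fun y _ => measurable_pi_apply y measurableSet_Iic)

theorem str_blocks {Ω : Type} [MeasurableSpace Ω] {P : Measure Ω} {X : ℕ → Ω → ℝ}
    (hI : IIDE P X) (a : ℝ) (m B J : ℕ) :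
    P {ω | ∀ j < J, ¬ ∀ y, B + j * m ≤ y → y < B + j * m + m → X y ω ≤ a} =
      (1 - P {ω | X 0 ω ≤ a} ^ m) ^ J := by
  have := hI.prob
  induction J with
  | zero => simp
  | succ J ih =>
    have key := str_indep hI (Finset.range (B + J * m)) (Finset.Ico (B + J * m) (B + J * m + m))
      (by
        rw [Finset.disjoint_left]
        intro x hx hx'
        rw [Finset.mem_range] at hx
        rw [Finset.mem_Ico] at hx'
        omega)
      {f | ∀ j < J, ¬ ∀ y, B + j * m ≤ y → y < B + j * m + m → f y ≤ a}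
      {f | ¬ ∀ y, B + J * m ≤ y → y < B + J * m + m → f y ≤ a}
      (by
        have h : {f : ℕ → ℝ | ∀ j < J, ¬ ∀ y, B + j * m ≤ y → y < B + j * m + m → f y ≤ a} =
            ⋂ j ∈ Finset.range J,
              {f : ℕ → ℝ | ∀ y, B + j * m ≤ y → y < B + j * m + m → f y ≤ a}ᶜ := by
          ext f
          rw [Set.mem_iInter₂]
          constructor
          · intro h j hj
            exact h j (Finset.mem_range.mp hj)
          · intro h j hj
            exact h j (Finset.mem_range.mpr hj)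
        rw [h]
        exact Finset.measurableSet_biInter _ (fun j _ => (str_meas a m (B + j * m)).compl))
      (str_meas a m (B + J * m)).compl
      (by
        intro f g hfg
        have h : ∀ j < J, ∀ y, B + j * m ≤ y → y < B + j * m + m → f y = g y := by
          intro j hj y _ hy
          apply hfg
          rw [Finset.mem_range]
          have : (j + 1) * m ≤ J * m := Nat.mul_le_mul_right m hj
          rw [Nat.add_mul, one_mul] at this
          omega
        constructor
        · intro hf j hj hg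
          exact hf j hj (fun y h1 h2 => by rw [h j hj y h1 h2]; exact hg y h1 h2)
        · intro hg j hj hf
          exact hg j hj (fun y h1 h2 => by rw [← h j hj y h1 h2]; exact hf y h1 h2))
      (by
        intro f g hfg
        have h : ∀ y, B + J * m ≤ y → y < B + J * m + m → f y = g y := by
          intro y h1 h2
          apply hfg
          rw [Finset.mem_Ico]
          exact ⟨h1, h2⟩
        constructor
        · intro hf hg
          exact hf (fun y h1 h2 => by rw [h y h1 h2]; exact hg y h1 h2)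
        · intro hg hf
          exact hg (fun y h1 h2 => by rw [← h y h1 h2]; exact hf y h1 h2))
    have hset : {ω | ∀ j < J + 1, ¬ ∀ y, B + j * m ≤ y → y < B + j * m + m → X y ω ≤ a} =
        {ω | (fun y => X y ω) ∈ {f : ℕ → ℝ | ∀ j < J, ¬ ∀ y, B + j * m ≤ y →
            y < B + j * m + m → f y ≤ a} ∧
          (fun y => X y ω) ∈ {f : ℕ → ℝ | ¬ ∀ y, B + J * m ≤ y → y < B + J * m + m → f y ≤ a}} := by
      ext ω
      simp only [Set.mem_ofPred_eq]
      constructor
      · intro h
        exact ⟨fun j hj => h j (Nat.lt_succ_of_lt hj), h J (Nat.lt_succ_self J)⟩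
      · intro h j hj
        rcases Nat.lt_succ_iff_lt_or_eq.mp hj with h1 | h1
        · exact h.1 j h1
        · rw [h1]
          exact h.2
    rw [hset, key]
    simp only [Set.mem_ofPred_eq]
    rw [ih, str_block hI a m (B + J * m), pow_succ]

theorem st_STR : ST_STR := by
  intro Ω _ P X hI hw ηp c2 m' hη hc hc4 hm
  have := hI.prob
  have hm0 : (0 : ℝ) < m' := by exact_mod_cast hm
  obtain ⟨p, hp⟩ : ∃ p, p = P {ω | X 0 ω ≤ 1 / 2 + 1 / m'} := ⟨_, rfl⟩
  have hp0 : p ≠ 0 := by
    intro h0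
    apply hw (1 / m') (by positivity)
    rw [h0] at hp
    refine measure_mono_null ?_ hp.symm
    intro ω hω
    have h : X 0 ω < 1 / 2 + 1 / (m' : ℝ) := hω
    exact h.le
  have hp1 : p ≤ 1 := by
    rw [hp]
    exact prob_le_one
  have hq : 1 - p ^ (m' + 1) < 1 := by
    apply ENNReal.sub_lt_self ENNReal.one_ne_top one_ne_zero
    exact pow_ne_zero _ hp0
  obtain ⟨J, hJ⟩ : ∃ J : ℕ, (1 - p ^ (m' + 1)) ^ J ≤ ENNReal.ofReal ηp := by
    have ht := ENNReal.tendsto_pow_atTop_nhds_zero_of_lt_one hq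
    have hpos : (0 : ENNReal) < ENNReal.ofReal ηp := ENNReal.ofReal_pos.mpr hη
    obtain ⟨J, hJ⟩ := ((tendsto_order.1 ht).2 _ hpos).exists
    exact ⟨J, hJ.le⟩
  refine ⟨2 * (1 + J * (m' + 1)), ?_⟩
  intro N hN
  have hNr : (2 : ℝ) * (1 + J * (m' + 1)) ≤ N := by exact_mod_cast hN
  have hN0 : (0 : ℝ) ≤ N := Nat.cast_nonneg N
  refine le_trans ?_ hJ
  rw [hp, ← str_blocks hI (1 / 2 + 1 / m') (m' + 1) ⌈c2 * N⌉₊ J]
  apply measure_mono
  intro ω hω j hj hgood
  apply hω
  refine ⟨⌈c2 * N⌉₊ + j * (m' + 1), ?_, ?_, ?_⟩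
  · push_cast
    have h1 := Nat.le_ceil (c2 * N)
    have h2 : (0 : ℝ) ≤ j * (m' + 1) := by positivity
    linarith
  · push_cast
    have h1 := Nat.ceil_lt_add_one (show 0 ≤ c2 * N by positivity)
    have h2 : ((j : ℝ) + 1) * (m' + 1) ≤ J * (m' + 1) := by
      apply mul_le_mul_of_nonneg_right _ (by positivity)
      exact_mod_cast hj
    nlinarith
  · intro x hx1 hx2
    have h1 := hgood (x - 1) (by omega) (by omega)
    have h2 := hgood x (by omega) (by omega)
    refine ⟨h1, ?_⟩
    show 1 / 2 - 1 / (m' : ℝ) ≤ 1 - X x ω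
    linarith

end Pool.Agent.Helper98.EX
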